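import Pool.Agent.Helper11x.ChDefs

/-!
# The cofinality of the character of an ultrafilter
-/

set_option autoImplicit false

namespace Pool.Agent.Helper11x.Char

open Cardinal Set

universe u

variable {X : Type u}

/-- `A` is positive for the filter generated by `S`. -/
def Pos (S : Set (Set X)) (A : Set X) : Prop := ∀ B ∈ Filter.generate S, (A ∩ B).Nonempty

theorem exists_base (U : Ultrafilter X) : ∃ B : Set (Set X), IsBase U B ∧ #B = Ch U :=
  csInf_mem (s := {c | ∃ B : Set (Set X), IsBase U B ∧ #B = c})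
    ⟨_, {A | A ∈ U}, ⟨fun _ h => h, fun A hA => ⟨A, hA, Subset.rfl⟩⟩, rfl⟩

theorem Ch_le {U : Ultrafilter X} {B : Set (Set X)} (h : IsBase U B) : Ch U ≤ #B :=
  csInf_le' ⟨B, h, rfl⟩

theorem aleph0_le_Ch {U : Ultrafilter X} (hU : ∀ x : X, {x} ∉ U) : ℵ₀ ≤ Ch U := by
  obtain ⟨B, hB, hc⟩ := exists_base U
  by_contra hlt
  rw [not_le, ← hc, Cardinal.lt_aleph0_iff_set_finite] at hlt
  have h1 : ⋂₀ B ∈ U := (Filter.sInter_mem (f := (U : Filter X)) hlt).2 hB.1
  obtain ⟨x, hx⟩ := U.nonempty_of_mem h1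
  have h2 : ({x} : Set X)ᶜ ∈ U := Ultrafilter.compl_mem_iff_notMem.2 (hU x)
  obtain ⟨b, hb, hbx⟩ := hB.2 _ h2
  exact hbx (hx b hb) rfl

/-- fewer than `Ch U` sets do not generate `U` -/
theorem exists_notMem {U : Ultrafilter X} (hU : ∀ x : X, {x} ∉ U) {S : Set (Set X)}
    (hS : ∀ A ∈ S, A ∈ U) (hc : #S < Ch U) : ∃ A ∈ U, A ∉ Filter.generate S := by
  by_contra hcon
  push Not at hcon
  let B : Set (Set X) := (fun t : Finset S => ⋂₀ (Subtype.val '' (t : Set S))) '' Set.univ
  have hB : IsBase U B := by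
    constructor
    · rintro _ ⟨t, -, rfl⟩
      refine (Filter.sInter_mem (f := (U : Filter X)) (t.finite_toSet.image _)).2 ?_
      rintro _ ⟨y, -, rfl⟩
      exact hS _ y.2
    · intro A hA
      obtain ⟨t, htS, htf, htA⟩ := Filter.mem_generate_iff.1 (hcon A hA)
      have hf : (Subtype.val ⁻¹' t : Set S).Finite := htf.preimage Subtype.val_injective.injOn
      refine ⟨_, ⟨hf.toFinset, mem_univ _, rfl⟩, ?_⟩
      refine Subset.trans ?_ htA
      intro x hx y hy
      exact hx y ⟨⟨y, htS hy⟩, by simpa using hy, rfl⟩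
  have h1 : #B < Ch U := by
    refine (Cardinal.mk_image_le).trans_lt ?_
    rw [Cardinal.mk_univ]
    rcases lt_or_ge #S ℵ₀ with h | h
    · have : Finite S := Cardinal.lt_aleph0_iff_finite.1 h
      exact (Cardinal.lt_aleph0_of_finite _).trans_le (aleph0_le_Ch hU)
    · have : Infinite S := Cardinal.infinite_iff.2 h
      rw [Cardinal.mk_finset_of_infinite]
      exact hc
  exact absurd (Ch_le hB) (not_le.2 h1)

theorem small_insert {U : Ultrafilter X} (hU : ∀ x : X, {x} ∉ U) {S : Set (Set X)}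
    (hc : #S < Ch U) (A : Set X) : #(insert A S : Set (Set X)) < Ch U := by
  refine (Cardinal.mk_insert_le).trans_lt ?_
  exact Cardinal.add_lt_of_lt (aleph0_le_Ch hU) hc
    (Cardinal.one_lt_aleph0.trans_le (aleph0_le_Ch hU))

/-- The ultrafilter is the union of `cof (Ch U)` small parts. -/
theorem exists_parts (U : Ultrafilter X) :
    ∃ F : (Ch U).ord.cof.ord.ToType → Set (Set X), (∀ i, ∀ A ∈ F i, A ∈ U) ∧
      (ℵ₀ ≤ Ch U → ∀ i, #(F i) < Ch U) ∧ ∀ A ∈ U, ∃ i, ∃ b ∈ F i, b ⊆ A := by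
  obtain ⟨B, hB, hc⟩ := exists_base U
  have hcard : #B = #((Ch U).ord.ToType) := by rw [hc, Cardinal.mk_toType, Cardinal.card_ord]
  obtain ⟨e⟩ := Cardinal.eq.1 hcard
  obtain ⟨s, hs, hs'⟩ := Ordinal.exists_ord_cof_eq ((Ch U).ord.ToType)
  rw [Ordinal.cof_toType, ← Ordinal.type_toType ((Ch U).ord.cof.ord)] at hs'
  obtain ⟨f⟩ := Ordinal.type_eq.1 hs'.symm
  refine ⟨fun i => {b | ∃ h : b ∈ B, e ⟨b, h⟩ ≤ (f i).1}, ?_, ?_, ?_⟩
  · rintro i A ⟨h, -⟩
    exact hB.1 A h
  · intro hinf i
    have h1 : #{b | ∃ h : b ∈ B, e ⟨b, h⟩ ≤ (f i).1} ≤ #(Iic (f i).1) := by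
      refine Cardinal.mk_le_of_injective
        (f := fun b : {b | ∃ h : b ∈ B, e ⟨b, h⟩ ≤ (f i).1} => ⟨e ⟨b.1, b.2.choose⟩,
          b.2.choose_spec⟩) ?_
      intro b b' hbb
      have := congrArg Subtype.val hbb
      have h2 := congrArg Subtype.val (e.injective this)
      exact Subtype.ext h2
    refine h1.trans_lt ?_
    have h3 : #(Iio (f i).1) < Ch U := Cardinal.mk_Iio_toType_ord_lt _
    have h4 : Iic (f i).1 = insert (f i).1 (Iio (f i).1) := by
      ext x
      simp [le_iff_eq_or_lt]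
    rw [h4]
    exact (Cardinal.mk_insert_le).trans_lt (Cardinal.add_lt_of_lt hinf h3
      (Cardinal.one_lt_aleph0.trans_le hinf))
  · intro A hA
    obtain ⟨b, hb, hbA⟩ := hB.2 A hA
    obtain ⟨y, hy, hby⟩ := hs (e ⟨b, hb⟩)
    refine ⟨f.symm ⟨y, hy⟩, b, ⟨hb, ?_⟩, hbA⟩
    simpa using hby

/-- A pair of disjoint positive sets not in `U`, outside a given set not in `U`. -/
theorem exists_pair {U : Ultrafilter X} (hU : ∀ x : X, {x} ∉ U) {S : Set (Set X)}
    (hS : ∀ A ∈ S, A ∈ U) (hc : #S < Ch U) {Q : Set X} (hQ : Q ∉ U) :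
    ∃ N : Set X, N ∉ U ∧ Pos S N ∧ Disjoint N Q := by
  have hQ' : Qᶜ ∈ U := Ultrafilter.compl_mem_iff_notMem.2 hQ
  obtain ⟨A, hA, hAg⟩ := exists_notMem hU (S := insert Qᶜ S) (by
    rintro B (rfl | hB)
    · exact hQ'
    · exact hS B hB) (small_insert hU hc _)
  refine ⟨Aᶜ \ Q, fun h => ?_, fun B hB => ?_, disjoint_sdiff_left⟩
  · have h1 : Aᶜ ∈ U := Filter.mem_of_superset h sdiff_subset
    exact (Ultrafilter.compl_mem_iff_notMem.1 h1) hA
  · by_contra hne
    rw [not_nonempty_iff_eq_empty] at hne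
    apply hAg
    have h1 : B ∈ Filter.generate (insert Qᶜ S) :=
      (Filter.le_generate_iff.2 fun x hx =>
        Filter.mem_generate_of_mem (mem_insert_of_mem _ hx)) hB
    have h2 : Qᶜ ∈ Filter.generate (insert Qᶜ S) :=
      Filter.mem_generate_of_mem (mem_insert _ _)
    refine Filter.mem_of_superset (Filter.inter_mem h1 h2) ?_
    intro x hx
    by_contra hxA
    have : x ∈ (∅ : Set X) := hne ▸ ⟨⟨hxA, hx.2⟩, hx.1⟩
    exact this


/-- The cofinality of the character is not countable. -/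
theorem cof_ne_aleph0 {U : Ultrafilter X} (hU : ∀ x : X, {x} ∉ U) : (Ch U).ord.cof ≠ ℵ₀ := by
  intro hθ
  obtain ⟨F, hF, hFc, hFU⟩ := exists_parts U
  have hinf := aleph0_le_Ch hU
  have hFc := hFc hinf
  let I := (Ch U).ord.cof.ord.ToType
  have hfin : ∀ i : I, (Iio i).Finite := by
    intro i
    have h1 : #(Iio i) < (Ch U).ord.cof := Cardinal.mk_Iio_toType_ord_lt _
    exact Cardinal.lt_aleph0_iff_set_finite.1 (lt_of_lt_of_eq h1 hθ)
  -- one step
  have step : ∀ (i : I) (Q : Set X), ∃ N : Bool → Set X, Q ∉ U →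
      (∀ c, N c ∉ U) ∧ (∀ c, Pos (F i) (N c)) ∧ (∀ c, Disjoint (N c) Q) ∧
        Disjoint (N true) (N false) := by
    intro i Q
    by_cases hQ : Q ∈ U
    · exact ⟨fun _ => ∅, fun h => absurd hQ h⟩
    obtain ⟨N0, h1, h2, h3⟩ := exists_pair hU (hF i) (hFc i) hQ
    have hQ1 : Q ∪ N0 ∉ U := by
      rw [Ultrafilter.union_mem_iff]
      exact not_or.2 ⟨hQ, h1⟩
    obtain ⟨N1, h4, h5, h6⟩ := exists_pair hU (hF i) (hFc i) hQ1
    refine ⟨fun c => if c then N1 else N0, fun _ => ⟨?_, ?_, ?_, ?_⟩⟩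
    · intro c
      cases c <;> simp [h1, h4]
    · intro c
      cases c <;> simp [h2, h5]
    · intro c
      cases c
      · simpa using h3
      · simpa using h6.mono_right subset_union_left
    · simpa using h6.mono_right subset_union_right
  choose st hst using step
  let N : I → Bool → Set X := WellFounded.fix (wellFounded_lt (α := I))
    fun i rec => st i (⋃ j : Iio i, ⋃ c, rec j.1 j.2 c)
  have hN : ∀ i, N i = st i (⋃ j : Iio i, ⋃ c, N j.1 c) := fun i =>
    WellFounded.fix_eq _ _ i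
  have hQ : ∀ i, (⋃ j : Iio i, ⋃ c, N j.1 c) ∉ U := by
    intro i
    induction i using WellFoundedLT.induction with
    | _ i ih =>
      intro h
      have : Finite (Iio i) := hfin i
      obtain ⟨j, hj⟩ := (Ultrafilter.eventually_exists_iff (f := U)
        (P := fun (j : Iio i) (x : X) => x ∈ ⋃ c, N j.1 c)).1 (by
          refine Filter.mem_of_superset h ?_
          intro x hx
          simpa using hx)
      obtain ⟨c, hc⟩ := (Ultrafilter.eventually_exists_iff (f := U)
        (P := fun (c : Bool) (x : X) => x ∈ N j.1 c)).1 (by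
          refine Filter.mem_of_superset hj ?_
          intro x hx
          simpa using hx)
      have h1 := (hst j.1 _ (ih j.1 j.2)).1 c
      rw [← hN] at h1
      exact h1 hc
  have hdisj : ∀ i j c c', c ≠ c' → Disjoint (N i c) (N j c') := by
    have key : ∀ i j c c', j < i → Disjoint (N i c) (N j c') := by
      intro i j c c' hji
      have h1 := (hst i _ (hQ i)).2.2.1 c
      rw [← hN] at h1
      refine h1.mono_right ?_
      intro x hx
      exact mem_iUnion.2 ⟨⟨j, hji⟩, mem_iUnion.2 ⟨c', hx⟩⟩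
    intro i j c c' hcc
    rcases lt_trichotomy i j with h | h | h
    · exact (key j i c' c h).symm
    · subst h
      have h1 := (hst i _ (hQ i)).2.2.2
      rw [← hN] at h1
      cases c <;> cases c' <;> simp at hcc ⊢
      · exact h1.symm
      · exact h1
    · exact key i j c c' h
  have hd : Disjoint (⋃ i, N i true) (⋃ i, N i false) := by
    simp only [disjoint_iUnion_left, disjoint_iUnion_right]
    exact fun i j => hdisj j i _ _ (by simp)
  obtain ⟨c, hc⟩ : ∃ c, (⋃ i, N i c) ∉ U := by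
    by_contra hcon
    push Not at hcon
    have := Filter.inter_mem (f := (U : Filter X)) (hcon true) (hcon false)
    rw [hd.inter_eq] at this
    exact U.empty_notMem this
  have hc' := Ultrafilter.compl_mem_iff_notMem.2 hc
  obtain ⟨i, b, hb, hbc⟩ := hFU _ hc'
  have h1 := (hst i _ (hQ i)).2.1 c
  rw [← hN] at h1
  obtain ⟨x, hx, hx'⟩ := h1 b (Filter.mem_generate_of_mem hb)
  exact hbc hx' (mem_iUnion.2 ⟨i, hx⟩)

/-- Some small part of `U` has few disjoint positive sets. -/
theorem exists_saturated {U : Ultrafilter X} (hU : ∀ x : X, {x} ∉ U) :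
    ∃ S : Set (Set X), (∀ A ∈ S, A ∈ U) ∧ #S < Ch U ∧
      ∀ P : Set (Set X), (∀ A ∈ P, ∀ B ∈ P, A ≠ B → Disjoint A B) →
        (∀ A ∈ P, Pos S A) → #P < 2 ^ (Ch U).ord.cof := by
  by_contra hcon
  push Not at hcon
  have hinf := aleph0_le_Ch hU
  obtain ⟨F, hF, hFc, hFU⟩ := exists_parts U
  have hFc := hFc hinf
  let I := (Ch U).ord.cof.ord.ToType
  have hI : #I = (Ch U).ord.cof := by rw [Cardinal.mk_toType, Cardinal.card_ord]
  have hIinf : ℵ₀ ≤ #I := by
    rw [hI]
    exact Ordinal.aleph0_le_cof_iff.2 (Ordinal.one_lt_cof_iff.2 (Cardinal.isSuccLimit_ord hinf))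
  have hK : #((I → Bool) × Bool) = 2 ^ (Ch U).ord.cof := by
    have h0 : #(I → Bool) = 2 ^ #I := by simp
    rw [Cardinal.mk_prod, Cardinal.lift_uzero, h0, Cardinal.mk_bool, Cardinal.lift_ofNat, hI]
    refine Cardinal.mul_eq_left ?_ ?_ two_ne_zero
    · rw [← hI]
      exact hIinf.trans (Cardinal.cantor _).le
    · rw [← hI]
      exact ((Cardinal.nat_lt_aleph0 2).le.trans hIinf).trans (Cardinal.cantor _).le
  -- rows
  have row : ∀ (i : I) (Q : Set X), ∃ D : (I → Bool) → Bool → Set X, Q ∉ U →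
      (∀ ν c, Pos (F i) (D ν c)) ∧ (∀ ν c, Disjoint (D ν c) Q) ∧
        ∀ ν c ν' c', (ν, c) ≠ (ν', c') → Disjoint (D ν c) (D ν' c') := by
    intro i Q
    by_cases hQ : Q ∈ U
    · exact ⟨fun _ _ => ∅, fun h => absurd hQ h⟩
    have hQ' : Qᶜ ∈ U := Ultrafilter.compl_mem_iff_notMem.2 hQ
    obtain ⟨P, hP1, hP2, hP3⟩ := hcon (insert Qᶜ (F i)) (by
      rintro B (rfl | hB)
      · exact hQ'
      · exact hF i B hB) (small_insert hU (hFc i) _)
    rw [← hK] at hP3
    obtain ⟨g⟩ := Cardinal.le_def _ _ |>.1 hP3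
    refine ⟨fun ν c => (g (ν, c)).1 \ Q, fun _ => ⟨fun ν c B hB => ?_,
      fun ν c => disjoint_sdiff_left, fun ν c ν' c' hne => ?_⟩⟩
    · have h1 : B ∈ Filter.generate (insert Qᶜ (F i)) :=
        (Filter.le_generate_iff.2 fun x hx =>
          Filter.mem_generate_of_mem (mem_insert_of_mem _ hx)) hB
      have h2 : Qᶜ ∈ Filter.generate (insert Qᶜ (F i)) :=
        Filter.mem_generate_of_mem (mem_insert _ _)
      obtain ⟨x, hx, hx'⟩ := hP2 _ (g (ν, c)).2 _ (Filter.inter_mem h1 h2)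
      exact ⟨x, ⟨hx, hx'.2⟩, hx'.1⟩
    · refine (hP1 _ (g (ν, c)).2 _ (g (ν', c')).2 ?_).mono sdiff_subset sdiff_subset
      intro h
      exact hne (g.injective (Subtype.ext h))
  choose st hst using row
  classical
  -- the union of the surviving sets
  let Q : (i : I) → (∀ j, j < i → Bool × ((I → Bool) → Bool → Set X)) → Bool → Set X :=
    fun i h b => ⋃ j : Iio i, ⋃ ν : {ν : I → Bool // (∀ k (hk : k < i), ν k = (h k hk).1) ∧
      ν i = b}, ⋃ c, (h j.1 j.2).2 ν.1 c
  let R : I → Bool × ((I → Bool) → Bool → Set X) := WellFounded.fix (wellFounded_lt (α := I))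
    fun i rec => if Q i rec false ∉ U then (false, st i (Q i rec false))
      else (true, st i (Q i rec true))
  let q : I → Bool → Set X := fun i b => Q i (fun j _ => R j) b
  have hR : ∀ i, R i = if q i false ∉ U then (false, st i (q i false))
      else (true, st i (q i true)) := fun i => WellFounded.fix_eq _ _ i
  have hR2 : ∀ i, (R i).2 = st i (q i (R i).1) := by
    intro i
    rw [hR i]
    split_ifs <;> rfl
  -- membership in the unions
  have memq : ∀ i b x, x ∈ q i b ↔ ∃ j, j < i ∧ ∃ ν : I → Bool, (∀ k < i, ν k = (R k).1) ∧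
      ν i = b ∧ ∃ c, x ∈ (R j).2 ν c := by
    intro i b x
    simp only [q, Q, mem_iUnion]
    constructor
    · rintro ⟨j, ν, c, h⟩
      exact ⟨j.1, j.2, ν.1, ν.2.1, ν.2.2, c, h⟩
    · rintro ⟨j, hj, ν, h1, h2, c, h⟩
      exact ⟨⟨j, hj⟩, ⟨ν, h1, h2⟩, c, h⟩
  have hq : ∀ i, q i (R i).1 ∉ U := by
    intro i
    induction i using WellFoundedLT.induction with
    | _ i ih =>
      -- the surviving sets of different colours are disjoint
      have key : ∀ j j' ν ν' c c', j' < j → j < i → (∀ k < i, ν k = (R k).1) →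
          (∀ k < i, ν' k = (R k).1) → Disjoint ((R j).2 ν c) ((R j').2 ν' c') := by
        intro j j' ν ν' c c' hjj hji hν hν'
        have h1 := (hst j _ (ih j hji)).2.1 ν c
        rw [← hR2] at h1
        refine h1.mono_right fun x hx => ?_
        exact (memq _ _ _).2 ⟨j', hjj, ν', fun k hk => hν' k (hk.trans hji), hν' j hji, c', hx⟩
      have hd : Disjoint (q i false) (q i true) := by
        rw [Set.disjoint_left]
        intro x hx hx'
        obtain ⟨j, hj, ν, h1, h2, c, h3⟩ := (memq _ _ _).1 hx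
        obtain ⟨j', hj', ν', h1', h2', c', h3'⟩ := (memq _ _ _).1 hx'
        rcases lt_trichotomy j j' with h | h | h
        · exact Set.disjoint_left.1 (key j' j ν' ν c' c h hj' h1' h1) h3' h3
        · subst h
          have h4 := (hst j _ (ih j hj)).2.2 ν c ν' c' (by
            intro h5
            rw [Prod.mk.injEq] at h5
            rw [h5.1, h2'] at h2
            exact Bool.noConfusion h2)
          rw [← hR2] at h4
          exact Set.disjoint_left.1 h4 h3 h3'
        · exact Set.disjoint_left.1 (key j j' ν ν' c c' h hj h1 h1') h3 h3'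
      by_cases h : q i false ∈ U
      · rw [hR i, if_neg (not_not.2 h)]
        intro h'
        have := Filter.inter_mem (f := (U : Filter X)) h h'
        rw [hd.inter_eq] at this
        exact U.empty_notMem this
      · rw [hR i, if_pos h]
        exact h
  let e : I → Bool := fun i => (R i).1
  have hdisj : ∀ i j c c', c ≠ c' → Disjoint ((R i).2 e c) ((R j).2 e c') := by
    have key : ∀ i j c c', j < i → Disjoint ((R i).2 e c) ((R j).2 e c') := by
      intro i j c c' hji
      have h1 := (hst i _ (hq i)).2.1 e c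
      rw [← hR2] at h1
      refine h1.mono_right fun x hx => ?_
      exact (memq _ _ _).2 ⟨j, hji, e, fun k _ => rfl, rfl, c', hx⟩
    intro i j c c' hcc
    rcases lt_trichotomy i j with h | h | h
    · exact (key j i c' c h).symm
    · subst h
      have h1 := (hst i _ (hq i)).2.2 e c e c' (by
        intro h5
        rw [Prod.mk.injEq] at h5
        exact hcc h5.2)
      rw [← hR2] at h1
      exact h1
    · exact key i j c c' h
  have hd : Disjoint (⋃ i, (R i).2 e true) (⋃ i, (R i).2 e false) := by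
    simp only [disjoint_iUnion_left, disjoint_iUnion_right]
    exact fun i j => hdisj j i _ _ (by simp)
  obtain ⟨c, hc⟩ : ∃ c, (⋃ i, (R i).2 e c) ∉ U := by
    by_contra hcon'
    push Not at hcon'
    have := Filter.inter_mem (f := (U : Filter X)) (hcon' true) (hcon' false)
    rw [hd.inter_eq] at this
    exact U.empty_notMem this
  have hc' := Ultrafilter.compl_mem_iff_notMem.2 hc
  obtain ⟨i, b, hb, hbc⟩ := hFU _ hc'
  have h1 := (hst i _ (hq i)).1 e c
  rw [← hR2] at h1
  obtain ⟨x, hx, hx'⟩ := h1 b (Filter.mem_generate_of_mem hb)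
  exact hbc hx' (mem_iUnion.2 ⟨i, hx⟩)

/-- The cofinality of the character is at least the completeness. -/
theorem le_cof {U : Ultrafilter X} (hU : ∀ x : X, {x} ∉ U) {κ : Cardinal.{u}}
    (hκ : ∀ T : Set (Set X), #T < κ → (∀ A ∈ T, A ∈ U) → ⋂₀ T ∈ U) : κ ≤ (Ch U).ord.cof := by
  by_contra hlt
  rw [not_le] at hlt
  have hinf := aleph0_le_Ch hU
  obtain ⟨F, hF, hFc, hFU⟩ := exists_parts U
  have hFc := hFc hinf
  have hI : #((Ch U).ord.cof.ord.ToType) = (Ch U).ord.cof := by
    rw [Cardinal.mk_toType, Cardinal.card_ord]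
  choose N hN1 hN2 _ using fun i =>
    exists_pair hU (hF i) (hFc i) (Q := ∅) U.empty_notMem
  have h1 : (⋃ i, N i)ᶜ ∈ U := by
    have h2 := hκ (range fun i => (N i)ᶜ) (Cardinal.mk_range_le.trans_lt (by rwa [hI])) (by
      rintro _ ⟨i, rfl⟩
      exact Ultrafilter.compl_mem_iff_notMem.2 (hN1 i))
    rwa [sInter_range, ← compl_iUnion] at h2
  obtain ⟨i, b, hb, hbc⟩ := hFU _ h1
  obtain ⟨x, hx, hx'⟩ := hN2 i b (Filter.mem_generate_of_mem hb)
  exact hbc hx' (mem_iUnion.2 ⟨i, hx⟩)

end Pool.Agent.Helper11x.Char
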