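import Mathlib

/-!
# The character of an ultrafilter
-/

set_option autoImplicit false

namespace Pool.Agent.Helper11x.Char

open Cardinal

universe u

variable {X : Type u}

/-- `B` is a base of the ultrafilter `U`. -/
def IsBase (U : Ultrafilter X) (B : Set (Set X)) : Prop :=
  (∀ b ∈ B, b ∈ U) ∧ ∀ A ∈ U, ∃ b ∈ B, b ⊆ A

/-- The character of `U`: the least cardinality of a base. -/
noncomputable def Ch (U : Ultrafilter X) : Cardinal.{u} :=
  sInf {c | ∃ B : Set (Set X), IsBase U B ∧ #B = c}

end Pool.Agent.Helper11x.Char
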